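import Pool.Agent.H562R3.GapTree

set_option autoImplicit false

/-!
MP_bcfe2b_lc, Q1: in ZFC there is an almost disjoint family of regular open sets on `N*` of
cardinality `2 ^ ℵ₁`.
-/

namespace Pool.Agent.Results.MP_bcfe2b_lc.FamilyAlephOne

open Set Cardinal Pool.Agent.H562R3.GapTree

/-- The space `N*` of nonprincipal ultrafilters on the natural numbers, as a subspace of the space
of all ultrafilters; its topology is generated by the sets `nbhd y`. -/
abbrev NStar : Type := {p : Ultrafilter ℕ // ∀ n : ℕ, ({n} : Set ℕ) ∉ p}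

/-- An almost disjoint family on a topological space: regular open non-compact sets with pairwise
compact intersections. -/
def IsADFamily {X : Type} [TopologicalSpace X] (A : Set (Set X)) : Prop :=
  (∀ U ∈ A, interior (closure U) = U ∧ ¬ IsCompact U) ∧
    ∀ U ∈ A, ∀ V ∈ A, U ≠ V → IsCompact (U ∩ V)

/-- basic clopen sets -/
def nbhd (y : Set ℕ) : Set NStar := {p | y ∈ p.1}

theorem fin_notMem (p : NStar) (s : Set ℕ) (hs : s.Finite) : s ∉ p.1 := by
  intro hsU
  rw [← Ultrafilter.mem_coe] at hsU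
  have := (Ultrafilter.finite_biUnion_mem_iff (f := p.1) hs (s := fun n => ({n} : Set ℕ))).mp (by
    simpa using hsU)
  obtain ⟨n, _, hn⟩ := this
  exact p.2 n hn

theorem mem_of_diff_finite (p : NStar) {s t : Set ℕ} (hs : s ∈ p.1) (h : (s \ t).Finite) :
    t ∈ p.1 := by
  have h1 : (s \ t)ᶜ ∈ p.1 := Ultrafilter.compl_mem_iff_notMem.mpr (fin_notMem p _ h)
  refine Filter.mem_of_superset (Filter.inter_mem hs h1) ?_
  rintro x ⟨hx1, hx2⟩
  by_contra hcon
  exact hx2 ⟨hx1, hcon⟩

theorem nbhd_open (y : Set ℕ) : IsOpen (nbhd y) :=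
  (ultrafilter_isOpen_basic y).preimage continuous_subtype_val

theorem nbhd_closed (y : Set ℕ) : IsClosed (nbhd y) :=
  (ultrafilter_isClosed_basic y).preimage continuous_subtype_val

instance : CompactSpace NStar := by
  have h1 : {p : Ultrafilter ℕ | ∀ n : ℕ, ({n} : Set ℕ) ∉ p} =
      ⋂ n : ℕ, {p : Ultrafilter ℕ | ({n} : Set ℕ) ∈ p}ᶜ := by
    ext p
    simp
  have h2 : IsClosed {p : Ultrafilter ℕ | ∀ n : ℕ, ({n} : Set ℕ) ∉ p} := by
    rw [h1]
    exact isClosed_iInter (fun n => (ultrafilter_isOpen_basic _).isClosed_compl)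
  exact isCompact_iff_compactSpace.mp h2.isCompact

theorem nbhd_compact (y : Set ℕ) : IsCompact (nbhd y) := (nbhd_closed y).isCompact

theorem exists_nbhd {U : Set NStar} (hU : IsOpen U) {p : NStar} (hp : p ∈ U) :
    ∃ y, p ∈ nbhd y ∧ nbhd y ⊆ U := by
  obtain ⟨O, hO, rfl⟩ := isOpen_induced_iff.mp hU
  obtain ⟨B, ⟨y, rfl⟩, hpB, hB⟩ :=
    ultrafilterBasis_is_basis.exists_subset_of_mem_open (a := p.1) (u := O) hp hO
  exact ⟨y, hpB, fun q hq => hB hq⟩

theorem nbhd_nonempty {y : Set ℕ} (hy : y.Infinite) : (nbhd y).Nonempty := by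
  let f : Filter ℕ := Filter.cofinite ⊓ Filter.principal y
  have hf : f.NeBot := by
    rw [Filter.inf_principal_neBot_iff]
    intro U hU
    by_contra hcon
    rw [Set.not_nonempty_iff_eq_empty] at hcon
    have h1 : (Uᶜ).Finite := hU
    apply hy
    refine h1.subset ?_
    intro x hx hxU
    have : x ∈ U ∩ y := ⟨hxU, hx⟩
    rw [hcon] at this
    exact this
  have hle := Ultrafilter.of_le f
  refine ⟨⟨Ultrafilter.of f, ?_⟩, ?_⟩
  · intro n hn
    have h1 : ({n} : Set ℕ)ᶜ ∈ Ultrafilter.of f :=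
      (hle.trans inf_le_left) (Set.finite_singleton n).compl_mem_cofinite
    exact (Ultrafilter.compl_mem_iff_notMem.mp h1) hn
  · exact (hle.trans inf_le_right) (Filter.mem_principal_self y)

/-- union of basic sets -/
def GG {I : Type} (y : I → Set ℕ) : Set NStar := ⋃ i, nbhd (y i)

/-- regular open hull of a union of basic sets -/
def UU {I : Type} (y : I → Set ℕ) : Set NStar := interior (closure (GG y))

theorem GG_open {I : Type} (y : I → Set ℕ) : IsOpen (GG y) := isOpen_iUnion (fun i => nbhd_open _)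

theorem UU_regular {I : Type} (y : I → Set ℕ) : interior (closure (UU y)) = UU y := by
  rw [UU, interior_closure_idem]

theorem GG_subset_UU {I : Type} (y : I → Set ℕ) : GG y ⊆ UU y :=
  interior_maximal subset_closure (GG_open y)

theorem UU_inter {I J : Type} (y : I → Set ℕ) (y' : J → Set ℕ) (z : Set ℕ)
    (h1 : nbhd z ⊆ GG y) (h2 : nbhd z ⊆ GG y') (h : ∀ i j, ((y i ∩ y' j) \ z).Finite) :
    UU y ∩ UU y' = nbhd z := by
  apply Set.Subset.antisymm
  · rintro p ⟨hp1, hp2⟩
    by_contra hcon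
    have hO : IsOpen (UU y ∩ UU y' ∩ (nbhd z)ᶜ) :=
      (isOpen_interior.inter isOpen_interior).inter (nbhd_closed z).isOpen_compl
    have hpc : p ∈ closure (GG y) := interior_subset hp1
    obtain ⟨q, hq1, hq2⟩ := mem_closure_iff.mp hpc _ hO ⟨⟨hp1, hp2⟩, hcon⟩
    have hqc : q ∈ closure (GG y') := interior_subset hq1.1.2
    obtain ⟨r, hr1, hr2⟩ := mem_closure_iff.mp hqc _ ((GG_open y).inter hO) ⟨hq2, hq1⟩
    obtain ⟨i, hi⟩ := Set.mem_iUnion.mp hr1.1
    obtain ⟨j, hj⟩ := Set.mem_iUnion.mp hr2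
    exact hr1.2.2 (mem_of_diff_finite r (Filter.inter_mem hi hj) (h i j))
  · intro p hp
    exact ⟨GG_subset_UU y (h1 hp), GG_subset_UU y' (h2 hp)⟩

/-- A compact open set is basic. -/
theorem compact_open {U : Set NStar} (hU : IsOpen U) (hc : IsCompact U) : ∃ z, U = nbhd z := by
  have hex : ∀ p : NStar, ∃ y, p ∈ U → (p ∈ nbhd y ∧ nbhd y ⊆ U) := by
    intro p
    by_cases hp : p ∈ U
    · obtain ⟨y, h1, h2⟩ := exists_nbhd hU hp
      exact ⟨y, fun _ => ⟨h1, h2⟩⟩
    · exact ⟨∅, fun h => absurd h hp⟩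
  choose y hy using hex
  obtain ⟨t, ht, hcov⟩ := hc.elim_nhds_subcover (fun p => nbhd (y p))
    (fun p hp => (nbhd_open _).mem_nhds (hy p hp).1)
  refine ⟨⋃ p ∈ t, y p, ?_⟩
  apply Set.Subset.antisymm
  · intro q hq
    have := hcov hq
    simp only [Set.mem_iUnion] at this
    obtain ⟨p, hp, hqp⟩ := this
    exact Filter.mem_of_superset hqp (Set.subset_biUnion_of_mem (u := fun p => y p) hp)
  · intro q hq
    have h1 : (⋃ p ∈ (t : Set NStar), y p) ∈ q.1 := hq
    have := (Ultrafilter.finite_biUnion_mem_iff (f := q.1) t.finite_toSet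
      (s := fun p => y p)).mp h1
    obtain ⟨p, hp, hqp⟩ := this
    exact (hy p (ht p hp)).2 hqp

/-- almost disjoint sets coded by the branches of the binary tree -/
def branch (f : ℕ → Bool) : Set ℕ :=
  Set.range (fun n => Encodable.encode ((List.range n).map f))

theorem branch_inj (f f' : ℕ → Bool) (n n' : ℕ)
    (h : Encodable.encode ((List.range n).map f) = Encodable.encode ((List.range n').map f')) :
    n = n' ∧ ∀ i < n, f i = f' i := by
  have h1 : (List.range n).map f = (List.range n').map f' := Encodable.encode_injective h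
  have h2 : n = n' := by
    have := congrArg List.length h1
    simpa using this
  subst h2
  refine ⟨rfl, fun i hi => ?_⟩
  have h3 : ((List.range n).map f)[i]? = ((List.range n).map f')[i]? := by rw [h1]
  simpa [hi] using h3

theorem branch_infinite (f : ℕ → Bool) : (branch f).Infinite := by
  apply Set.infinite_range_of_injective
  intro n n' h
  exact (branch_inj f f n n' h).1

theorem branch_inter {f f' : ℕ → Bool} (h : f ≠ f') : (branch f ∩ branch f').Finite := by
  obtain ⟨i, hi⟩ := Function.ne_iff.mp h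
  refine ((Set.finite_Iic i).image (fun n => Encodable.encode ((List.range n).map f))).subset ?_
  rintro x ⟨⟨n, hn⟩, ⟨n', hn'⟩⟩
  refine ⟨n, ?_, hn⟩
  have := branch_inj f f' n n' (hn.trans hn'.symm)
  by_contra hcon
  simp only [Set.mem_Iic, not_le] at hcon
  exact hi (this.2 i hcon)

/-- columns -/
def col (n : ℕ) : Set ℕ := {m | (Nat.unpair m).1 = n}

theorem col_infinite (n : ℕ) : (col n).Infinite := by
  apply Set.infinite_of_injective_forall_mem (f := fun k => Nat.pair n k)
  · intro k k' h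
    have := congrArg (fun m => (Nat.unpair m).2) h
    simpa using this
  · intro k
    simp [col]

/-- A family of continuum size. -/
theorem exists_family_continuum : ∃ A : Set (Set NStar), Cardinal.mk A = Cardinal.continuum ∧
    IsADFamily A := by
  let V : (ℕ → Bool) → Set NStar := fun f => UU (fun n : branch f => col n.1)
  have hinter : ∀ f f', f ≠ f' → V f ∩ V f' = nbhd (⋃ n ∈ branch f ∩ branch f', col n) := by
    intro f f' hff
    have hfin := branch_inter hff
    have hsub : ∀ q : NStar, q ∈ nbhd (⋃ n ∈ branch f ∩ branch f', col n) →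
        ∃ n ∈ branch f ∩ branch f', col n ∈ q.1 := by
      intro q hq
      exact (Ultrafilter.finite_biUnion_mem_iff (f := q.1) hfin (s := fun n => col n)).mp hq
    apply UU_inter
    · intro q hq
      obtain ⟨n, hn, hqn⟩ := hsub q hq
      exact Set.mem_iUnion.mpr ⟨⟨n, hn.1⟩, hqn⟩
    · intro q hq
      obtain ⟨n, hn, hqn⟩ := hsub q hq
      exact Set.mem_iUnion.mpr ⟨⟨n, hn.2⟩, hqn⟩
    · rintro ⟨n, hn⟩ ⟨m, hm⟩
      convert Set.finite_empty
      rw [Set.eq_empty_iff_forall_notMem]
      rintro x ⟨⟨hx1, hx2⟩, hx3⟩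
      have hnm : n = m := by
        have h1 : (Nat.unpair x).1 = n := hx1
        have h2 : (Nat.unpair x).1 = m := hx2
        exact h1.symm.trans h2
      subst hnm
      apply hx3
      simp only [Set.mem_iUnion]
      exact ⟨n, ⟨hn, hm⟩, hx1⟩
  have hncomp : ∀ f, ¬ IsCompact (V f) := by
    intro f hc
    obtain ⟨z, hz⟩ : ∃ z, V f = nbhd z := compact_open isOpen_interior hc
    have hcol : ∀ n ∈ branch f, (col n \ z).Finite := by
      intro n hn
      by_contra hcon
      obtain ⟨q, hq⟩ := nbhd_nonempty (Set.not_finite.mp hcon)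
      have h1 : q ∈ GG (fun n : branch f => col n.1) :=
        Set.mem_iUnion.mpr ⟨⟨n, hn⟩, Filter.mem_of_superset hq Set.sdiff_subset⟩
      have h2 : q ∈ V f := GG_subset_UU _ h1
      rw [hz] at h2
      have h3 : (col n \ z) ∩ z ∈ q.1 := Filter.inter_mem hq h2
      obtain ⟨x, hx1, hx2⟩ := Ultrafilter.nonempty_of_mem h3
      exact hx1.2 hx2
    have hpick : ∀ n, ∃ x, n ∈ branch f → (x ∈ col n ∧ x ∈ z) := by
      intro n
      by_cases hn : n ∈ branch f
      · obtain ⟨x, hx1, hx2⟩ := ((col_infinite n).sdiff (hcol n hn)).nonempty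
        refine ⟨x, fun _ => ⟨hx1, ?_⟩⟩
        by_contra hcon
        exact hx2 ⟨hx1, hcon⟩
      · exact ⟨0, fun h => absurd h hn⟩
    choose x hx using hpick
    have hw : (x '' branch f).Infinite := by
      apply (branch_infinite f).image
      intro n hn m hm hnm
      have h1 : (Nat.unpair (x n)).1 = n := (hx n hn).1
      have h2 : (Nat.unpair (x m)).1 = m := (hx m hm).1
      have h3 : x n = x m := hnm
      rw [h3] at h1
      exact h1.symm.trans h2
    obtain ⟨q, hq⟩ := nbhd_nonempty hw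
    have hqz : q ∈ V f := by
      rw [hz]
      refine Filter.mem_of_superset hq ?_
      rintro _ ⟨n, hn, rfl⟩
      exact (hx n hn).2
    have hqc : q ∈ closure (GG (fun n : branch f => col n.1)) := interior_subset hqz
    obtain ⟨r, hr1, hr2⟩ := mem_closure_iff.mp hqc _ (nbhd_open _) hq
    obtain ⟨⟨n, hn⟩, hrn⟩ := Set.mem_iUnion.mp hr2
    refine fin_notMem r _ ?_ (Filter.inter_mem hr1 hrn)
    refine (Set.finite_singleton (x n)).subset ?_
    rintro _ ⟨⟨m, hm, rfl⟩, hmn⟩
    have h1 : (Nat.unpair (x m)).1 = m := (hx m hm).1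
    have h2 : (Nat.unpair (x m)).1 = n := hmn
    have : m = n := h1.symm.trans h2
    rw [this]
    exact Set.mem_singleton _
  have hinj : Function.Injective V := by
    intro f f' hff
    by_contra hne
    apply hncomp f
    have h1 := hinter f f' hne
    rw [← hff, Set.inter_self] at h1
    rw [h1]
    exact nbhd_compact _
  refine ⟨Set.range V, ?_, ?_, ?_⟩
  · rw [Cardinal.mk_range_eq V hinj]
    simp
  · rintro _ ⟨f, rfl⟩
    exact ⟨UU_regular _, hncomp f⟩
  · rintro _ ⟨f, rfl⟩ _ ⟨f', rfl⟩ hne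
    rw [hinter f f' (fun h => hne (by rw [h]))]
    exact nbhd_compact _

/-- ZFC proves that there is an almost disjoint family on `N*` of cardinality `2 ^ ℵ₁`. -/
theorem result : ∃ A : Set (Set NStar), Cardinal.mk A = 2 ^ Cardinal.aleph 1 ∧ IsADFamily A := by
  have hle : Cardinal.continuum ≤ 2 ^ Cardinal.aleph 1 := by
    rw [← Cardinal.two_power_aleph0]
    exact Cardinal.power_le_power_left two_ne_zero Cardinal.aleph0_lt_aleph_one.le
  rcases eq_or_lt_of_le hle with heq | hlt
  · rw [← heq]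
    exact exists_family_continuum
  -- the tree of height omega_1
  let Ω : Type := (Cardinal.aleph 1).ord.ToType
  have hΩc : Cardinal.mk Ω = Cardinal.aleph 1 := by simp [Ω]
  have hΩ : ∀ a : Ω, (Set.Iio a).Countable := by
    intro a
    rw [← Cardinal.le_aleph0_iff_set_countable]
    have := Cardinal.mk_Iio_toType_ord_lt a
    rw [← Order.lt_succ_iff, Cardinal.succ_aleph0]
    exact this
  have hnomax : ∀ a : Ω, ∃ i, a < i := by
    intro a
    by_contra hcon
    push Not at hcon
    have h1 : (Set.univ : Set Ω) ⊆ insert a (Set.Iio a) := by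
      intro i _
      rcases lt_or_eq_of_le (hcon i) with h | h
      · exact Or.inr h
      · exact Or.inl h
    have h2 : (Set.univ : Set Ω).Countable := ((hΩ a).insert a).mono h1
    rw [← Cardinal.le_aleph0_iff_set_countable, Cardinal.mk_univ, hΩc] at h2
    exact absurd Cardinal.aleph0_lt_aleph_one (not_lt.mpr h2)
  let V : (Ω → Bool) → Set NStar := fun b => UU (Y b)
  have hinter : ∀ b b', b ≠ b' → ∃ δ, V b ∩ V b' = nbhd (Y b δ) := by
    intro b b' hbb
    have hne : {i | b i ≠ b' i}.Nonempty := Function.ne_iff.mp hbb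
    let δ := (wellFounded_lt (α := Ω)).min _ hne
    have hδ : b δ ≠ b' δ := (wellFounded_lt (α := Ω)).min_mem _ hne
    have hlow : ∀ i < δ, b i = b' i := by
      intro i hi
      by_contra hcon
      exact (wellFounded_lt (α := Ω)).not_lt_min _ hcon hi
    refine ⟨δ, ?_⟩
    have hYY : Y b δ = Y b' δ := by simp only [Y, F_congr δ b b' hlow]
    apply UU_inter
    · exact Set.subset_iUnion (fun i => nbhd (Y b i)) δ
    · rw [hYY]
      exact Set.subset_iUnion (fun i => nbhd (Y b' i)) δ
    · intro i j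
      exact Y_inter hΩ b b' δ hlow hδ i j
  have hinj : Function.Injective V := by
    intro b b' hVV
    by_contra hne
    obtain ⟨δ, hδ⟩ := hinter b b' hne
    rw [← hVV, Set.inter_self] at hδ
    obtain ⟨i, hi⟩ := hnomax δ
    obtain ⟨q, hq⟩ := nbhd_nonempty (Y_strict hΩ b hi)
    have h1 : q ∈ V b := GG_subset_UU _
      (Set.mem_iUnion.mpr ⟨i, Filter.mem_of_superset hq Set.sdiff_subset⟩)
    rw [hδ] at h1
    obtain ⟨x, hx1, hx2⟩ := Ultrafilter.nonempty_of_mem (Filter.inter_mem hq h1)
    exact hx1.2 hx2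
  -- few compact ones
  let C : Set (Ω → Bool) := {b | IsCompact (V b)}
  have hC : Cardinal.mk C ≤ Cardinal.continuum := by
    have hz : ∀ b : C, ∃ z, V b.1 = nbhd z := fun b => compact_open isOpen_interior b.2
    choose z hz using hz
    have hzi : Function.Injective z := by
      intro b b' h
      apply Subtype.ext
      apply hinj
      rw [hz b, hz b', h]
    have := Cardinal.mk_le_of_injective hzi
    simpa using this
  have hB : Cardinal.mk (Ω → Bool) = 2 ^ Cardinal.aleph 1 := by simp [hΩc]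
  have hcompl : Cardinal.mk (Cᶜ : Set (Ω → Bool)) = 2 ^ Cardinal.aleph 1 := by
    rw [← hB]
    have : Infinite (Ω → Bool) := by
      rw [Cardinal.infinite_iff, hB]
      exact Cardinal.aleph0_le_continuum.trans hle
    apply Cardinal.mk_compl_of_infinite
    rw [hB]
    exact lt_of_le_of_lt hC hlt
  refine ⟨V '' Cᶜ, ?_, ?_, ?_⟩
  · rw [Cardinal.mk_image_eq hinj, hcompl]
  · rintro _ ⟨b, hb, rfl⟩
    exact ⟨UU_regular _, hb⟩
  · rintro _ ⟨b, _, rfl⟩ _ ⟨b', _, rfl⟩ hne
    obtain ⟨δ, hδ⟩ := hinter b b' (fun h => hne (by rw [h]))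
    rw [hδ]
    exact nbhd_compact _

end Pool.Agent.Results.MP_bcfe2b_lc.FamilyAlephOne
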